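import Mathlib
import Pool.Agent.Q170.AS.Miss
import Pool.Agent.Q170.AS.Near
import Pool.Agent.Q170.AS.Range

/-!
# An achievement set with interior points that is not the whole plane

There is a conditionally convergent series in the plane whose sum range is the whole plane and
whose achievement set contains a neighbourhood of the origin but misses a vertical line. In
particular the achievement set is not the plane, has positive Lebesgue measure and is of the second
Baire category.
-/

namespace Pool.Agent.Results.MP_160bbb_an.InteriorNotFull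

open Filter Topology MeasureTheory

/-- The series `∑ y n` (in the order of the indices) converges to `s`. -/
def ConvergesTo (y : ℕ → Fin 2 → ℝ) (s : Fin 2 → ℝ) : Prop :=
  Tendsto (fun N => ∑ n ∈ Finset.range N, y n) atTop (𝓝 s)

/-- The series converges and the series of its norms diverges. -/
def ConditionallyConvergent (x : ℕ → Fin 2 → ℝ) : Prop :=
  (∃ s, ConvergesTo x s) ∧ ¬ Summable (fun n => ‖x n‖)

/-- The set of the sums of the convergent rearrangements. -/
def SumRange (x : ℕ → Fin 2 → ℝ) : Set (Fin 2 → ℝ) :=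
  {s | ∃ σ : Equiv.Perm ℕ, ConvergesTo (fun n => x (σ n)) s}

/-- The set of the sums of the convergent series `∑ ε n x n` with `ε n ∈ {0, 1}`. -/
def AchievementSet (x : ℕ → Fin 2 → ℝ) : Set (Fin 2 → ℝ) :=
  {s | ∃ ε : ℕ → ℝ, (∀ n, ε n = 0 ∨ ε n = 1) ∧ ConvergesTo (fun n => ε n • x n) s}

theorem result : ∃ x : ℕ → Fin 2 → ℝ, ConditionallyConvergent x ∧ SumRange x = Set.univ ∧
    (∀ s ∈ AchievementSet x, s 0 ≠ 1) ∧ 0 ∈ interior (AchievementSet x) ∧
    AchievementSet x ≠ Set.univ ∧ 0 < volume (AchievementSet x) ∧
    ¬ IsMeagre (AchievementSet x) := by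
  classical
  have hmiss : ∀ s ∈ AchievementSet Q170.AS.x, s 0 ≠ 1 := by
    rintro s ⟨ε, hε, hs⟩
    refine Q170.AS.miss (fun n => ε n = 1) s ?_
    refine Tendsto.congr (fun N => Finset.sum_congr rfl fun n _ => ?_) hs
    rcases hε n with h | h
    · simp [h]
    · simp [h]
  have hnear : 0 ∈ interior (AchievementSet Q170.AS.x) := by
    rw [mem_interior_iff_mem_nhds]
    refine Filter.mem_of_superset (Metric.ball_mem_nhds 0 (show (0 : ℝ) < 1 / 20 by norm_num)) ?_
    intro s hs
    rw [mem_ball_zero_iff] at hs
    have h0 := (norm_le_pi_norm s 0).trans hs.le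
    have h1 := (norm_le_pi_norm s 1).trans hs.le
    obtain ⟨p, hp⟩ := Q170.AS.near (s 0) (s 1) h0 h1
    refine ⟨fun n => if p n then 1 else 0, fun n => ?_, ?_⟩
    · by_cases h : p n
      · right; exact if_pos h
      · left; exact if_neg h
    · have hs' : ![s 0, s 1] = s := by
        funext i
        fin_cases i <;> rfl
      rw [hs'] at hp
      refine Tendsto.congr (fun N => Finset.sum_congr rfl fun n _ => ?_) hp
      by_cases h : p n
      · simp [h]
      · simp [h]
  refine ⟨Q170.AS.x, ⟨Q170.AS.converges, Q170.AS.not_summable⟩, ?_, hmiss, hnear, ?_, ?_, ?_⟩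
  · rw [Set.eq_univ_iff_forall]
    exact fun T => Q170.AS.sum_range_univ T
  · intro h
    have : (fun _ => 1 : Fin 2 → ℝ) ∈ AchievementSet Q170.AS.x := h ▸ Set.mem_univ _
    exact hmiss _ this rfl
  · exact Measure.measure_pos_of_nonempty_interior _ ⟨0, hnear⟩
  · intro h
    exact not_isMeagre_of_isOpen isOpen_interior ⟨0, hnear⟩ (h.mono interior_subset)

end Pool.Agent.Results.MP_160bbb_an.InteriorNotFull
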